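import Pool.Agent.H121.FL.Iface

/-! FL-IT: proof of `S_it` (iteration of a finite range inequality gives exponential decay). -/

set_option autoImplicit false

open scoped BigOperators InnerProductSpace Topology ENNReal
open Filter MeasureTheory

namespace Pool.Agent.H662.FL

open Pool.Agent.H121.FL
open Pool.Agent.H987.Y (Lt)

theorem nm_natAbs_le {d : ℕ} (x : Lt d) (i : Fin d) : (x i).natAbs ≤ nm x :=
  Finset.single_le_sum (f := fun i => (x i).natAbs) (fun _ _ => Nat.zero_le _) (Finset.mem_univ i)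

theorem nm_tri {d : ℕ} (x y : Lt d) : nm (x + y) ≤ nm x + nm y := by
  unfold nm
  rw [← Finset.sum_add_distrib]
  exact Finset.sum_le_sum fun i _ => Int.natAbs_add_le _ _

/-- the ball as a finset -/
noncomputable def bl {d : ℕ} (R : ℕ) (a : Lt d) : Finset (Lt d) :=
  Fintype.piFinset fun i => Finset.Icc (a i - R) (a i + R)

theorem bl_card {d : ℕ} (R : ℕ) (a : Lt d) : (bl R a).card = nb d R := by
  unfold bl nb
  rw [Fintype.card_piFinset]
  have : ∀ i, (Finset.Icc (a i - R) (a i + R)).card = 2 * R + 1 := by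
    intro i
    rw [Int.card_Icc]
    omega
  rw [Finset.prod_congr rfl fun i _ => this i, Finset.prod_const, Finset.card_univ, Fintype.card_fin]

theorem mem_bl {d : ℕ} {R : ℕ} {a b : Lt d} (h : nm (a - b) ≤ R) : b ∈ bl R a := by
  unfold bl
  rw [Fintype.mem_piFinset]
  intro i
  have h1 := (nm_natAbs_le (a - b) i).trans h
  rw [Pi.sub_apply] at h1
  rw [Finset.mem_Icc]
  omega

/-- a sum over a ball of a function bounded there by `c` -/
theorem sum_ball_le {d : ℕ} (R : ℕ) (a : Lt d) (f : Lt d → ℝ≥0∞) (c : ℝ≥0∞)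
    (h : ∀ b, nm (a - b) ≤ R → f b ≤ c) :
    (∑' b, if nm (a - b) ≤ R then f b else 0) ≤ (nb d R : ℝ≥0∞) * c := by
  rw [tsum_eq_sum (s := bl R a)]
  · calc ∑ b ∈ bl R a, (if nm (a - b) ≤ R then f b else 0) ≤ ∑ b ∈ bl R a, c := by
          refine Finset.sum_le_sum fun b _ => ?_
          split_ifs with h1
          · exact h b h1
          · exact bot_le
      _ = (nb d R : ℝ≥0∞) * c := by
          rw [Finset.sum_const, bl_card, nsmul_eq_mul]
  · intro b hb
    rw [if_neg]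
    exact fun h1 => hb (mem_bl h1)

theorem half_sum {d : ℕ} (R : ℕ) (a : Lt d) (f : Lt d → ℝ≥0∞) (c : ℝ≥0∞)
    (h : ∀ b, nm (a - b) ≤ R → f b ≤ c) :
    (2 * (nb d R : ℝ≥0∞))⁻¹ * (∑' b, if nm (a - b) ≤ R then f b else 0) ≤ 2⁻¹ * c := by
  have hn0 : (nb d R : ℝ≥0∞) ≠ 0 := by
    have : 0 < nb d R := by unfold nb; positivity
    exact_mod_cast this.ne'
  have hnt : (nb d R : ℝ≥0∞) ≠ ∞ := ENNReal.natCast_ne_top _
  calc (2 * (nb d R : ℝ≥0∞))⁻¹ * (∑' b, if nm (a - b) ≤ R then f b else 0) ≤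
      (2 * (nb d R : ℝ≥0∞))⁻¹ * ((nb d R : ℝ≥0∞) * c) := by
        gcongr
        exact sum_ball_le R a f c h
    _ = 2⁻¹ * c := by
        rw [ENNReal.mul_inv (Or.inl (by norm_num)) (Or.inl (by norm_num)), mul_assoc, ← mul_assoc (nb d R : ℝ≥0∞)⁻¹,
          ENNReal.inv_mul_cancel hn0 hnt, one_mul]

theorem s_it : S_it := by
  intro d R y f M A hR hM hf hA hrec
  -- the supremum
  set M0 : ℝ≥0∞ := ⨆ a, f a with hM0
  have hM0t : M0 ≠ ∞ := ne_top_of_le_ne_top hM (iSup_le hf)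
  have h1 : M0 ≤ A + 2⁻¹ * M0 := by
    refine iSup_le fun a => (hrec a).trans ?_
    refine add_le_add ?_ (half_sum R a f M0 fun b _ => le_iSup f b)
    split_ifs
    · exact le_rfl
    · exact bot_le
  have h2 : M0 ≤ 2 * A := by
    have e : M0 = 2⁻¹ * M0 + 2⁻¹ * M0 := by
      rw [← add_mul, ENNReal.inv_two_add_inv_two, one_mul]
    have h3 : 2⁻¹ * M0 + 2⁻¹ * M0 ≤ A + 2⁻¹ * M0 := e ▸ h1
    have ht : 2⁻¹ * M0 ≠ ∞ := ENNReal.mul_ne_top (by norm_num) hM0t
    have h4 : 2⁻¹ * M0 ≤ A := (ENNReal.add_le_add_iff_right ht).1 h3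
    calc M0 = 2⁻¹ * M0 + 2⁻¹ * M0 := e
      _ ≤ A + A := add_le_add h4 h4
      _ = 2 * A := (two_mul A).symm
  have key : ∀ j : ℕ, ∀ a, (j = 0 ∨ j * R < nm (a - y)) → f a ≤ (2⁻¹ : ℝ≥0∞) ^ j * (2 * A) := by
    intro j
    induction j with
    | zero =>
      intro a _
      rw [pow_zero, one_mul]
      exact (le_iSup f a).trans h2
    | succ j ih =>
      intro a ha
      rcases ha with ha | ha
      · omega
      · have hR1 : R ≤ (j + 1) * R := Nat.le_mul_of_pos_left R (Nat.succ_pos j)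
        have hneg : ¬ nm (a - y) ≤ R := by omega
        have h5 := hrec a
        rw [if_neg hneg, zero_add] at h5
        refine h5.trans ((half_sum R a f ((2⁻¹ : ℝ≥0∞) ^ j * (2 * A)) ?_).trans ?_)
        · intro b hb
          apply ih
          right
          have h6 : nm (a - y) ≤ nm (a - b) + nm (b - y) := by
            have := nm_tri (a - b) (b - y)
            rwa [sub_add_sub_cancel] at this
          have h7 : (j + 1) * R = j * R + R := by ring
          omega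
        · rw [pow_succ', mul_assoc]
  intro a
  -- choice of j
  set n := nm (a - y) with hn
  have hj : ∃ j : ℕ, (j = 0 ∨ j * R < n) ∧ n ≤ (j + 1) * R := by
    rcases Nat.eq_zero_or_pos n with h0 | h0
    · exact ⟨0, Or.inl rfl, by omega⟩
    · refine ⟨(n - 1) / R, Or.inr ?_, ?_⟩
      · have := Nat.div_mul_le_self (n - 1) R
        omega
      · have := Nat.lt_div_mul_add (a := n - 1) hR
        have h8 : ((n - 1) / R + 1) * R = (n - 1) / R * R + R := by ring
        omega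
  obtain ⟨j, hj1, hj2⟩ := hj
  refine (key j a hj1).trans ?_
  have hRr : (0 : ℝ) < R := by exact_mod_cast hR
  have h9 : ENNReal.ofReal ((1 / 2 : ℝ) ^ (j + 1)) ≤
      ENNReal.ofReal (Real.exp (-(Real.log 2 / R) * n)) := by
    apply ENNReal.ofReal_le_ofReal
    have e1 : (1 / 2 : ℝ) ^ (j + 1) = Real.exp (-(Real.log 2) * ((j : ℝ) + 1)) := by
      rw [← Real.exp_log (show (0 : ℝ) < (1 / 2 : ℝ) ^ (j + 1) by positivity), Real.log_pow,
        one_div, Real.log_inv]
      push_cast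
      ring_nf
    rw [e1]
    apply Real.exp_le_exp.2
    have h10 : (n : ℝ) ≤ ((j : ℝ) + 1) * R := by exact_mod_cast hj2
    have h11 : (n : ℝ) / R ≤ (j : ℝ) + 1 := by
      rw [div_le_iff₀ hRr]
      exact h10
    have h12 : 0 < Real.log 2 := Real.log_pos (by norm_num)
    have h13 : -(Real.log 2 / R) * n = -(Real.log 2 * ((n : ℝ) / R)) := by ring
    rw [h13]
    have h14 := mul_le_mul_of_nonneg_left h11 h12.le
    linarith
  calc (2⁻¹ : ℝ≥0∞) ^ j * (2 * A) = 4 * A * (2⁻¹ : ℝ≥0∞) ^ (j + 1) := by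
        rw [pow_succ]
        have : (4 : ℝ≥0∞) = 2 * 2 := by norm_num
        have h22 : (2 : ℝ≥0∞) * 2⁻¹ = 1 := ENNReal.mul_inv_cancel (by norm_num) (by norm_num)
        calc (2⁻¹ : ℝ≥0∞) ^ j * (2 * A) = (2 * 2⁻¹) * (2 * A * (2⁻¹ : ℝ≥0∞) ^ j) := by rw [h22]; ring
          _ = 4 * A * ((2⁻¹ : ℝ≥0∞) ^ j * 2⁻¹) := by rw [this]; ring
    _ = 4 * A * ENNReal.ofReal ((1 / 2 : ℝ) ^ (j + 1)) := by
        congr 1
        rw [ENNReal.ofReal_pow (by norm_num), one_div, ENNReal.ofReal_inv_of_pos (by norm_num)]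
        norm_num
    _ ≤ _ := by gcongr

end Pool.Agent.H662.FL
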